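import Pool.Agent.H29.TC.Targets

/-!
# The coefficients of a product of characters
-/

set_option autoImplicit false

open NumberField NumberField.InfinitePlace NumberField.Units
  NumberField.Units.dirichletUnitTheorem MeasureTheory Set Filter Complex
open scoped nonZeroDivisors ENNReal

namespace Pool.Agent.H59.THC

open Pool.Agent.H25.HK Pool.Agent.H28.RC Pool.Agent.H23.LB Pool.Agent.H29.TC

theorem pf_TW (hCF : T_CF) : T_TW := by
  classical
  intro K _ _ f g χ η h M hf hf1 hM x hx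
  have hg : g ≠ ⊥ := by
    rintro rfl
    exact hf (le_bot_iff.1 h)
  obtain ⟨a1, _, _, _, _, _, _, a2, _⟩ := hCF K f (tw χ η h) M hf hM
  obtain ⟨b1, _, _, _, _, _, _, b2, _⟩ := hCF K f χ M hf hM
  obtain ⟨c1, _⟩ := hCF K g η M hg hM
  by_cases h0 : x = 0
  · subst h0
    rw [a2 hf1, b2 hf1, zero_mul]
  · rw [a1 x hx h0, b1 x hx h0, c1 x hx h0]
    have e1 : sg K (tw χ η h).S x = sg K χ.S x * sg K η.S x := sg_symmDiff χ.S η.S x
    have e2 : ph (tw χ η h).ν x = ph χ.ν x * ph η.ν x := ph_add χ.ν η.ν x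
    have e3 : (tw χ η h).ψ (idl K M x) = χ.ψ (idl K M x) * η.ψ (idl K M x) := rfl
    rw [e1, e2, e3, map_mul]
    ring

end Pool.Agent.H59.THC
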